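import Pool.Agent.PebAlg.Defs

/-!
# M13: polynomial-time computability of the easy parts

Library: `Pool/Agent/Lib/PolyTime/Lib.lean` (read it first: `PolyTime.iterate`, `iterate_add`, `foldr`, `map`,
`filter`, `range`, `length`, `add`, `mul`, `le`, `getD`, `all`, `any`, `ite`, `cond`, ...; natural numbers are in unary).
* `div`: `f a / g a` = number of `i < f a` with `(i + 1) * g a ≤ f a` if `g a ≠ 0`, and `0` if `g a = 0`.
* `log2`: iterate `f a` times on the state `(p, c)` (start `(1, 0)`): if `2 p ≤ f a` then `(2 p, c + 1)` else the same;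
  the second component is `Nat.log 2 (f a)`.  The state stays `≤ f a + 1`.  (Alternatively: number of `c < f a`
  such that ... avoid unary numbers `2^c` with `c` up to `n`!)
* `pow2log`: `2 ^ (L - LL)`, `L = Nat.log 2 (f a)`, is at most `f a + 1`: iterate doubling `L - LL` times starting with `1`
  (size bound: all intermediate values are `≤ 2^(L-LL) ≤ f a + 1`).
* the rest by composition.  `topo`: `PolyTime.iterate` with the size bound: all entries of the two lists are `< side w`
  and the total length is `side w` (invariant: `s.1 ++ s.2` is a permutation of `range (side w)`,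
  for every `w`, no hypothesis needed), so the size is at most polynomial in the size of `w`.
-/

set_option autoImplicit false

open Pool.Agent.Lib.PT

namespace Pool.Agent.PebAlg

variable {α : Type*} [Enc α]

theorem M13_len_filter_lt (n m : ℕ) :
    ((List.range n).filter (fun i => decide (i < m))).length = min n m := by
  induction n with
  | zero => simp
  | succ n ih =>
    rw [List.range_succ, List.filter_append, List.length_append, ih]
    by_cases h : n < m
    · simp [h]
      omega
    · simp [h]
      omega

theorem polyTime_div {f g : α → ℕ} (hf : PolyTime f) (hg : PolyTime g) :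
    PolyTime (fun a => f a / g a) := by
  have h1 : PolyTime (fun a => ((List.range (f a)).filter
      (fun i => decide ((i + 1) * g a ≤ f a))).length) :=
    (PolyTime.filter (f := fun a i => decide ((i + 1) * g a ≤ f a)) hf.range
      (((PolyTime.id.snd.succ).mul (hg.comp PolyTime.id.fst)).le (hf.comp PolyTime.id.fst))).length
  refine (PolyTime.ite (c := fun a => g a = 0) hg.isZero (PolyTime.const 0) h1).congr fun a => ?_
  by_cases h : g a = 0
  · rw [if_pos h, h, Nat.div_zero]
  · rw [if_neg h]
    have hg0 : 0 < g a := Nat.pos_of_ne_zero h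
    have h2 : (List.range (f a)).filter (fun i => decide ((i + 1) * g a ≤ f a)) =
        (List.range (f a)).filter (fun i => decide (i < f a / g a)) := by
      apply List.filter_congr
      intro i _
      rw [decide_eq_decide, ← Nat.le_div_iff_mul_le hg0]
      exact Nat.succ_le_iff
    rw [h2, M13_len_filter_lt]
    exact min_eq_right (Nat.div_le_self _ _)

/-- one step of the computation of the logarithm -/
def M13_ls (s : ℕ × ℕ) : ℕ × ℕ := if 2 ≤ s.1 then (s.1 / 2, s.2 + 1) else s

theorem M13_ls_inv (n i : ℕ) :
    Nat.log 2 (M13_ls^[i] (n, 0)).1 + (M13_ls^[i] (n, 0)).2 = Nat.log 2 n ∧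
    (M13_ls^[i] (n, 0)).1 ≤ n ∧
    ((M13_ls^[i] (n, 0)).1 < 2 ∨ (M13_ls^[i] (n, 0)).1 + i ≤ n) := by
  induction i with
  | zero => simp
  | succ i ih =>
    rw [Function.iterate_succ_apply']
    obtain ⟨h1, h2, h3⟩ := ih
    generalize M13_ls^[i] (n, 0) = s at h1 h2 h3 ⊢
    unfold M13_ls
    by_cases h : 2 ≤ s.1
    · rw [if_pos h]
      have h4 := Nat.log_of_one_lt_of_le (by norm_num : 1 < 2) h
      refine ⟨?_, ?_, ?_⟩
      · show Nat.log 2 (s.1 / 2) + (s.2 + 1) = Nat.log 2 n
        omega
      · show s.1 / 2 ≤ n
        omega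
      · show s.1 / 2 < 2 ∨ s.1 / 2 + (i + 1) ≤ n
        omega
    · rw [if_neg h]
      exact ⟨h1, h2, Or.inl (by omega)⟩

theorem polyTime_log2 {f : α → ℕ} (hf : PolyTime f) : PolyTime (fun a => Nat.log 2 (f a)) := by
  have hstep : PolyTime (fun q : α × (ℕ × ℕ) => M13_ls q.2) := by
    unfold M13_ls
    refine PolyTime.ite (c := fun q : α × (ℕ × ℕ) => 2 ≤ q.2.1)
      ((PolyTime.const 2).le PolyTime.id.snd.fst) ?_ PolyTime.id.snd
    exact (polyTime_div PolyTime.id.snd.fst (PolyTime.const 2)).pair PolyTime.id.snd.snd.succ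
  have h := PolyTime.iterate (f := fun (_ : α) (x : ℕ × ℕ) => M13_ls x) hf
    (hf.pair (PolyTime.const 0)) hstep (by
      obtain ⟨p, hp⟩ := hf.sz_le
      refine ⟨2 * p + 3, fun a i hi => ?_⟩
      obtain ⟨h1, h2, _⟩ := M13_ls_inv (f a) i
      have h3 := hp a
      rw [sz_nat] at h3
      have h4 := Nat.log_le_self 2 (f a)
      have h5 : sz (M13_ls^[i] (f a, 0)) =
          2 * (M13_ls^[i] (f a, 0)).1 + 1 + (2 * (M13_ls^[i] (f a, 0)).2 + 1) + 1 := by
        rw [← sz_nat, ← sz_nat, ← sz_pair]
      rw [Polynomial.eval_add, Polynomial.eval_mul]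
      simp only [Polynomial.eval_ofNat]
      rw [h5]
      omega)
  refine h.snd.congr fun a => ?_
  obtain ⟨h1, _, h3⟩ := M13_ls_inv (f a) (f a)
  have h4 : (M13_ls^[f a] (f a, 0)).1 < 2 := by omega
  rw [Nat.log_of_lt h4] at h1
  show (M13_ls^[f a] (f a, 0)).2 = Nat.log 2 (f a)
  omega

theorem M13_dbl (i : ℕ) : (fun x : ℕ => x + x)^[i] 1 = 2 ^ i := by
  induction i with
  | zero => rfl
  | succ i ih =>
    rw [Function.iterate_succ_apply', ih, pow_succ]
    ring

theorem M13_pow_log_le (n : ℕ) : 2 ^ Nat.log 2 n ≤ n + 1 := by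
  rcases Nat.eq_zero_or_pos n with h | h
  · subst h
    simp
  · exact (Nat.pow_log_le_self 2 (by omega)).trans (Nat.le_succ n)

theorem polyTime_pow2log {f : α → ℕ} (hf : PolyTime f) :
    PolyTime (fun a => 2 ^ (Nat.log 2 (f a) - Nat.log 2 (Nat.log 2 (f a)))) := by
  have hL := polyTime_log2 hf
  have hLL := polyTime_log2 hL
  have h := PolyTime.iterate (f := fun (_ : α) (x : ℕ) => x + x) (hL.sub hLL)
    (PolyTime.const 1) (PolyTime.id.snd.add PolyTime.id.snd) (by
      obtain ⟨p, hp⟩ := hf.sz_le
      refine ⟨p + 3, fun a i hi => ?_⟩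
      rw [M13_dbl, sz_nat]
      have h3 := hp a
      rw [sz_nat] at h3
      have h4 : 2 ^ i ≤ 2 ^ Nat.log 2 (f a) := Nat.pow_le_pow_right (by norm_num) (by omega)
      have h5 := M13_pow_log_le (f a)
      rw [Polynomial.eval_add]
      simp only [Polynomial.eval_ofNat]
      omega)
  exact h.congr fun a => M13_dbl _

theorem polyTime_side {f : α → List Bool} (hf : PolyTime f) : PolyTime (fun a => side (f a)) := by
  unfold side
  exact (PolyTime.filter (f := fun a i => decide ((i + 1) * (i + 1) ≤ (f a).length))
    hf.length.range ((PolyTime.id.snd.succ.mul PolyTime.id.snd.succ).le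
      (hf.comp PolyTime.id.fst).length)).length

theorem polyTime_adj {f : α → List Bool} {i j : α → ℕ} (hf : PolyTime f) (hi : PolyTime i)
    (hj : PolyTime j) : PolyTime (fun a => adj (f a) (i a) (j a)) := by
  unfold adj
  exact PolyTime.getD hf ((hi.mul (polyTime_side hf)).add hj) (PolyTime.const false)

theorem M13_topoStep_inv (w : List Bool) (s : List ℕ × List ℕ) :
    (∀ x ∈ s.1, x < side w) → (∀ x ∈ s.2, x < side w) →
    (∀ x ∈ (topoStep w s).1, x < side w) ∧ (∀ x ∈ (topoStep w s).2, x < side w) ∧
    (topoStep w s).1.length + (topoStep w s).2.length = s.1.length + s.2.length := by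
  intro h1 h2
  unfold topoStep
  refine ⟨?_, ?_, ?_⟩
  · intro x hx
    exact h1 x (List.mem_filter.1 hx).1
  · intro x hx
    rcases List.mem_append.1 hx with hx | hx
    · exact h2 x hx
    · exact h1 x (List.mem_filter.1 hx).1
  · show (s.1.filter (fun v => !(s.1.all (fun u => !(adj w u v))))).length +
      (s.2 ++ s.1.filter (fun v => s.1.all (fun u => !(adj w u v)))).length = _
    rw [List.length_append]
    have h3 : ∀ (l : List ℕ) (p : ℕ → Bool),
        (l.filter (fun v => !(p v))).length + (l.filter p).length = l.length := by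
      intro l p
      induction l with
      | nil => rfl
      | cons a l ih =>
        rw [List.filter_cons, List.filter_cons]
        cases hp : p a
        · simp only [Bool.not_false, if_true, List.length_cons]
          simp
          omega
        · simp only [Bool.not_true, List.length_cons]
          simp
          omega
    have h4 := h3 s.1 (fun v => s.1.all (fun u => !(adj w u v)))
    omega

theorem M13_topo_inv (w : List Bool) (i : ℕ) :
    (∀ x ∈ ((topoStep w)^[i] (List.range (side w), [])).1, x < side w) ∧
    (∀ x ∈ ((topoStep w)^[i] (List.range (side w), [])).2, x < side w) ∧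
    ((topoStep w)^[i] (List.range (side w), [])).1.length +
      ((topoStep w)^[i] (List.range (side w), [])).2.length = side w := by
  induction i with
  | zero =>
    refine ⟨fun x hx => List.mem_range.1 hx, fun x hx => absurd hx (by simp), by simp⟩
  | succ i ih =>
    rw [Function.iterate_succ_apply']
    obtain ⟨h1, h2, h3⟩ := M13_topoStep_inv w _ ih.1 ih.2.1
    exact ⟨h1, h2, h3.trans ih.2.2⟩

theorem M13_topoStep_pt : PolyTime (fun q : List Bool × (List ℕ × List ℕ) => topoStep q.1 q.2) := by
  have hadj : PolyTime (fun r : ((List Bool × (List ℕ × List ℕ)) × ℕ) × ℕ =>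
      !(adj r.1.1.1 r.2 r.1.2)) :=
    (polyTime_adj PolyTime.id.fst.fst.fst PolyTime.id.snd PolyTime.id.fst.snd).not
  have hall : PolyTime (fun q : (List Bool × (List ℕ × List ℕ)) × ℕ =>
      q.1.2.1.all (fun u => !(adj q.1.1 u q.2))) :=
    PolyTime.all (f := fun (q : (List Bool × (List ℕ × List ℕ)) × ℕ) (u : ℕ) =>
      !(adj q.1.1 u q.2)) PolyTime.id.fst.snd.fst hadj
  unfold topoStep
  exact (PolyTime.filter (f := fun (q : List Bool × (List ℕ × List ℕ)) (v : ℕ) =>
      !(q.2.1.all (fun u => !(adj q.1 u v)))) PolyTime.id.snd.fst hall.not).pair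
    (PolyTime.id.snd.snd.append (PolyTime.filter
      (f := fun (q : List Bool × (List ℕ × List ℕ)) (v : ℕ) =>
        q.2.1.all (fun u => !(adj q.1 u v))) PolyTime.id.snd.fst hall))

theorem M13_sz_list {l : List ℕ} {n : ℕ} (h1 : l.length ≤ n) (h2 : ∀ x ∈ l, x < n) :
    sz l ≤ n * (2 * n + 2) + 1 := by
  have h := sz_le_of_length (l := l) (n := n) (B := 2 * n + 1) h1 (fun x hx => by
    rw [sz_nat]
    have := h2 x hx
    omega)
  exact h

theorem polyTime_topo : PolyTime (fun w : List Bool => topo w) := by
  unfold topo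
  have hside : PolyTime (fun w : List Bool => side w) := polyTime_side PolyTime.id
  have h := PolyTime.iterate (f := fun (w : List Bool) (s : List ℕ × List ℕ) => topoStep w s)
    hside (hside.range.pair (PolyTime.const ([] : List ℕ))) M13_topoStep_pt (by
      obtain ⟨p, hp⟩ := hside.sz_le
      refine ⟨2 * (p * (2 * p + 2) + 1) + 1, fun w i hi => ?_⟩
      obtain ⟨h1, h2, h3⟩ := M13_topo_inv w i
      have e1 : ∀ s : List ℕ × List ℕ, sz s = sz s.1 + sz s.2 + 1 := fun s => rfl
      have h4 := M13_sz_list (n := side w) (by omega) h1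
      have h5 := M13_sz_list (n := side w) (by omega) h2
      have h6 := hp w
      rw [sz_nat] at h6
      have h7 : side w * (2 * side w + 2) ≤ p.eval (sz w) * (2 * p.eval (sz w) + 2) :=
        Nat.mul_le_mul (by omega) (by omega)
      show sz ((topoStep w)^[i] (List.range (side w), [])) ≤ _
      rw [e1]
      simp only [Polynomial.eval_add, Polynomial.eval_mul, Polynomial.eval_ofNat,
        Polynomial.eval_one]
      omega)
  exact h.snd

theorem polyTime_maxDeg : PolyTime (fun w : List Bool => maxDeg w) := by
  unfold maxDeg deg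
  have h1 : PolyTime (fun q : (List Bool × ℕ) × ℕ =>
      ((List.range (side q.1.1)).filter (fun u => adj q.1.1 u q.2)).length) :=
    (PolyTime.filter (f := fun (q : (List Bool × ℕ) × ℕ) (u : ℕ) => adj q.1.1 u q.2)
      (polyTime_side PolyTime.id.fst.fst).range
      (polyTime_adj PolyTime.id.fst.fst.fst PolyTime.id.snd PolyTime.id.fst.snd)).length
  have h2 : PolyTime (fun q : List Bool × ℕ => (List.range (side q.1)).any
      (fun v => decide (q.2 < ((List.range (side q.1)).filter (fun u => adj q.1 u v)).length))) :=
    PolyTime.any (f := fun (q : List Bool × ℕ) (v : ℕ) =>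
      decide (q.2 < ((List.range (side q.1)).filter (fun u => adj q.1 u v)).length))
      (polyTime_side PolyTime.id.fst).range (PolyTime.lt PolyTime.id.fst.snd h1)
  exact (PolyTime.filter (f := fun (w : List Bool) (i : ℕ) => (List.range (side w)).any
      (fun v => decide (i < ((List.range (side w)).filter (fun u => adj w u v)).length)))
    (polyTime_side PolyTime.id).range h2).length

theorem polyTime_thr (C : ℕ) {f : α → ℕ} (hf : PolyTime f) : PolyTime (fun a => thr C (f a)) := by
  unfold thr
  exact polyTime_div ((PolyTime.const C).mul (polyTime_log2 hf))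
    (polyTime_log2 (polyTime_log2 hf)).succ

theorem polyTime_bsize {f : α → ℕ} (hf : PolyTime f) : PolyTime (fun a => bsize (f a)) := by
  unfold bsize
  have h := polyTime_log2 hf
  refine (((h.mul h).mul h).succ).congr fun a => ?_
  ring

theorem polyTime_blk : PolyTime (fun q : List Bool × ℕ => blk q.1 q.2) := by
  unfold blk
  have hb : PolyTime (fun q : List Bool × ℕ => bsize (side q.1)) :=
    polyTime_bsize (polyTime_side PolyTime.id.fst)
  exact PolyTime.take hb (PolyTime.drop (PolyTime.id.snd.mul hb)
    (polyTime_topo.comp PolyTime.id.fst))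

/-- all entries of the topological order are `< side w` (for every bit string `w`) -/
theorem mem_topo_lt (w : List Bool) (x : ℕ) (hx : x ∈ topo w) : x < side w :=
  (M13_topo_inv w (side w)).2.1 x hx

end Pool.Agent.PebAlg
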