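import Pool.Agent.PebAlg.Defs

/-!
# M08: reading the code of a digraph

* `length_code`: `n * n`.
* `side_code`: `i` ranges over `0, ..., n²-1` and `(i+1)² ≤ n² ↔ i < n`; for `n = 0` both sides are `0`.
* `adj_code`: entry number `i * n + j` of the concatenation of the rows.
* `deg_code`: the list `(range n).filter (adj · v)` has the same length as the filter over `Fin n`.
* `deg_le_maxDeg`, `maxDeg_le`: `maxDeg w` counts the `i < n` such that some vertex has degree `> i`, so it
  is the maximum of the degrees (all degrees are `≤ n`): if `deg v = d` then all `i < d` are counted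
  (`d ≤ n`), and if all degrees are `≤ Δ` then only `i < Δ` are counted.
-/

set_option autoImplicit false

namespace Pool.Agent.PebAlg

variable {n : ℕ} (E : Fin n → Fin n → Bool)

theorem length_code : (code E).length = n * n := by
  unfold code
  rw [List.length_flatMap]
  simp

theorem length_filter_lt (m k : ℕ) :
    ((List.range m).filter (fun i => decide (i < k))).length = min k m := by
  induction m with
  | zero => simp
  | succ m ih =>
    rw [List.range_succ, List.filter_append, List.length_append, ih]
    by_cases h : m < k
    · rw [List.filter_cons_of_pos (by simpa using h)]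
      simp
      omega
    · rw [List.filter_cons_of_neg (by simpa using h)]
      simp
      omega

theorem side_code : side (code E) = n := by
  unfold side
  rw [length_code]
  have h1 : (List.range (n * n)).filter (fun i => decide ((i + 1) * (i + 1) ≤ n * n)) =
      (List.range (n * n)).filter (fun i => decide (i < n)) := by
    apply List.filter_congr
    intro i _
    rw [Bool.eq_iff_iff, decide_eq_true_eq, decide_eq_true_eq, Nat.mul_self_le_mul_self_iff]
    exact Iff.rfl
  rw [h1, length_filter_lt]
  have h2 : n ≤ n * n := by
    rcases Nat.eq_zero_or_pos n with h | h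
    · rw [h]
    · exact Nat.le_mul_of_pos_left n h
  exact min_eq_left h2

theorem getD_flatMap {α : Type} (l : List α) (f : α → List Bool) (m : ℕ)
    (hf : ∀ x ∈ l, (f x).length = m) (i j : ℕ) (hi : i < l.length) (hj : j < m) :
    (l.flatMap f).getD (i * m + j) false = (f l[i]).getD j false := by
  induction l generalizing i with
  | nil => simp at hi
  | cons x l ih =>
    rw [List.flatMap_cons]
    have hx := hf x (List.mem_cons_self)
    cases i with
    | zero =>
      rw [Nat.zero_mul, Nat.zero_add, List.getD_append _ _ _ _ (by omega)]
      rfl
    | succ i =>
      have h1 : (i + 1) * m + j = m + (i * m + j) := by ring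
      rw [h1, List.getD_append_right _ _ _ _ (by omega), hx, Nat.add_sub_cancel_left]
      rw [ih (fun y hy => hf y (List.mem_cons_of_mem _ hy)) i (by simpa using hi)]
      rfl

theorem adj_code (i j : Fin n) : adj (code E) i j = E i j := by
  unfold adj
  rw [side_code]
  unfold code
  rw [getD_flatMap (List.finRange n) (fun i => (List.finRange n).map (fun j => E i j)) n
    (by intro x _; simp) i j (by simp) j.isLt]
  rw [List.getD_eq_getElem _ _ (by simp)]
  simp

theorem deg_code (v : Fin n) :
    deg (code E) v = (Finset.univ.filter (fun u : Fin n => E u v = true)).card := by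
  unfold deg
  rw [side_code]
  have h1 : List.range n = (List.finRange n).map Fin.val := by
    rw [List.map_coe_finRange_eq_range]
  rw [h1, List.filter_map, List.length_map]
  have h2 : (List.finRange n).filter ((fun u => adj (code E) u v) ∘ Fin.val) =
      (List.finRange n).filter (fun u => E u v) := by
    apply List.filter_congr
    intro u _
    exact adj_code E u v
  rw [h2, ← List.toFinset_card_of_nodup ((List.nodup_finRange n).filter _)]
  congr 1
  ext u
  simp

theorem deg_le_side (v : Fin n) : deg (code E) v ≤ n := by
  rw [deg_code]
  refine (Finset.card_le_univ _).trans ?_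
  simp

theorem deg_le_maxDeg (v : Fin n) :
    (Finset.univ.filter (fun u : Fin n => E u v = true)).card ≤ maxDeg (code E) := by
  rw [← deg_code]
  unfold maxDeg
  rw [side_code]
  have h1 : List.range (deg (code E) v) ⊆ (List.range n).filter
      (fun i => (List.range n).any (fun v => decide (i < deg (code E) v))) := by
    intro i hi
    rw [List.mem_range] at hi
    rw [List.mem_filter, List.mem_range, List.any_eq_true]
    refine ⟨lt_of_lt_of_le hi (deg_le_side E v), v, ?_, ?_⟩
    · rw [List.mem_range]
      exact v.isLt
    · rw [decide_eq_true_eq]
      exact hi
  have h2 := (List.subperm_of_subset (List.nodup_range) h1).length_le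
  rwa [List.length_range] at h2

theorem maxDeg_le {Δ : ℕ}
    (h : ∀ v : Fin n, (Finset.univ.filter (fun u : Fin n => E u v = true)).card ≤ Δ) :
    maxDeg (code E) ≤ Δ := by
  unfold maxDeg
  rw [side_code]
  have h1 : (List.range n).filter
      (fun i => (List.range n).any (fun v => decide (i < deg (code E) v))) ⊆ List.range Δ := by
    intro i hi
    rw [List.mem_filter, List.any_eq_true] at hi
    obtain ⟨-, v, hv, hiv⟩ := hi
    rw [List.mem_range] at hv
    rw [decide_eq_true_eq] at hiv
    rw [List.mem_range]
    have h2 := h ⟨v, hv⟩
    rw [← deg_code] at h2
    exact lt_of_lt_of_le hiv h2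
  have h2 := (List.subperm_of_subset ((List.nodup_range).filter _) h1).length_le
  rwa [List.length_range] at h2

end Pool.Agent.PebAlg
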