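import Mathlib
import Pool.Agent.Lib.PolyTime.Lib

/-!
# Polynomial-time approximation of the black pebbling number: definitions

Part 1: the pebble game (with sliding) and the game restricted to a set `S` of vertices (without
sliding, in-neighbours outside `S` are free).
Part 2: the algorithm, as a function on bit strings (adjacency matrix, row by row).
-/

set_option autoImplicit false

namespace Pool.Agent.PebAlg

/-! ### The game -/

section game

variable {V : Type*} [DecidableEq V]

/-- One move of the standard black pebble game with sliding on the digraph `E`
(`E u v` means that there is an edge from `u` to `v`). Configurations are the finite sets of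
pebbled vertices. -/
inductive Move (E : V → V → Prop) : Finset V → Finset V → Prop
  | place (C : Finset V) (v : V) (h : ∀ u, E u v → u ∈ C) : Move E C (insert v C)
  | remove (C : Finset V) (v : V) : Move E C (C.erase v)
  | slide (C : Finset V) (u v : V) (huv : E u v) (h : ∀ x, E x v → x ∈ C) :
      Move E C (insert v (C.erase u))

/-- `CanPebble E t k`: some pebbling, starting from the empty configuration and never using more
than `k` pebbles, reaches a configuration in which `t` carries a pebble. -/
def CanPebble (E : V → V → Prop) (t : V) (k : ℕ) : Prop :=
  ∃ C, Relation.ReflTransGen (fun C D => Move E C D ∧ D.card ≤ k) ∅ C ∧ t ∈ C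

/-- The black pebbling number of the digraph `E` with target `t`. -/
noncomputable def Peb (E : V → V → Prop) (t : V) : ℕ := sInf {k | CanPebble E t k}

/-- Moves of the game without sliding, restricted to the vertex set `S`: a vertex `v` of `S` may
be pebbled if all its in-neighbours *in `S`* are pebbled (the others are free). -/
inductive BMove (E : V → V → Prop) (S : Finset V) : Finset V → Finset V → Prop
  | place (C : Finset V) (v : V) (hv : v ∈ S) (h : ∀ u ∈ S, E u v → u ∈ C) :
      BMove E S C (insert v C)
  | remove (C : Finset V) (v : V) : BMove E S C (C.erase v)

/-- reachability in the restricted game, every configuration after the first one has at most `k`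
pebbles -/
def BReach (E : V → V → Prop) (S : Finset V) (k : ℕ) (C D : Finset V) : Prop :=
  Relation.ReflTransGen (fun C D => BMove E S C D ∧ D.card ≤ k) C D

/-- `v` can be pebbled in the restricted game with `k` pebbles -/
def BCan (E : V → V → Prop) (S : Finset V) (v : V) (k : ℕ) : Prop :=
  ∃ C, BReach E S k ∅ C ∧ v ∈ C

/-- number of edges inside `S` -/
noncomputable def edgesIn (E : V → V → Prop) (S : Finset V) : ℕ :=
  by classical exact ((S ×ˢ S).filter (fun p => E p.1 p.2)).card

end game

/-! ### The algorithm -/

/-- the adjacency matrix of a digraph on `Fin n`, row by row, as a bit string of length `n²` -/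
def code {n : ℕ} (E : Fin n → Fin n → Bool) : List Bool :=
  (List.finRange n).flatMap (fun i => (List.finRange n).map (fun j => E i j))

/-- integer square root of the length -/
def side (w : List Bool) : ℕ :=
  ((List.range w.length).filter (fun i => decide ((i + 1) * (i + 1) ≤ w.length))).length

/-- the entry `(i, j)` of the matrix -/
def adj (w : List Bool) (i j : ℕ) : Bool := w.getD (i * side w + j) false

/-- one round of the topological sorting: the vertices of `s.1` without an in-neighbour in `s.1`
are moved to the end of `s.2` -/
def topoStep (w : List Bool) (s : List ℕ × List ℕ) : List ℕ × List ℕ :=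
  (s.1.filter (fun v => !(s.1.all (fun u => !(adj w u v)))),
    s.2 ++ s.1.filter (fun v => s.1.all (fun u => !(adj w u v))))

/-- the vertices `0, ..., n-1` in topological order -/
def topo (w : List Bool) : List ℕ :=
  ((topoStep w)^[side w] (List.range (side w), [])).2

/-- indegree of `v` -/
def deg (w : List Bool) (v : ℕ) : ℕ :=
  ((List.range (side w)).filter (fun u => adj w u v)).length

/-- maximal indegree -/
def maxDeg (w : List Bool) : ℕ :=
  ((List.range (side w)).filter
    (fun i => (List.range (side w)).any (fun v => decide (i < deg w v)))).length

/-- number of pebbles allowed in the search: `⌊C log₂ n / (log₂ log₂ n + 1)⌋` -/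
def thr (C n : ℕ) : ℕ := C * Nat.log 2 n / (Nat.log 2 (Nat.log 2 n) + 1)

/-- size of a block -/
def bsize (n : ℕ) : ℕ := (Nat.log 2 n) ^ 3 + 1

/-- the `j`-th block of the topological order -/
def blk (w : List Bool) (j : ℕ) : List ℕ :=
  ((topo w).drop (j * bsize (side w))).take (bsize (side w))

/-- all sublists of `S` of length at most `K` -/
def subs (K : ℕ) (S : List ℕ) : List (List ℕ) :=
  S.foldr (fun a acc => acc ++ (acc.map (fun c => a :: c)).filter
    (fun c => decide (c.length ≤ K))) [[]]

/-- possible transition from the configuration `d` to the configuration `c` inside the block `S`: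
remove some pebbles, or pebble one more vertex and then remove some pebbles -/
def mv (w : List Bool) (K : ℕ) (S d c : List ℕ) : Bool :=
  c.all (fun x => d.any (fun y => decide (x = y))) ||
  (decide (d.length < K) && S.any (fun v =>
    (S.all (fun u => !(adj w u v) || d.any (fun y => decide (u = y)))) &&
    c.all (fun x => decide (x = v) || d.any (fun y => decide (x = y)))))

/-- one round of the search -/
def rstep (w : List Bool) (K : ℕ) (S : List ℕ) (all R : List (List ℕ)) : List (List ℕ) :=
  all.filter (fun c => R.any (fun d => mv w K S d c))

/-- the configurations with at most `K` pebbles reachable inside the block `S` -/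
def reachL (w : List Bool) (K : ℕ) (S : List ℕ) : List (List ℕ) :=
  (rstep w K S (subs K S))^[(subs K S).length] [[]]

/-- can all vertices of the block `S` be pebbled inside `S` with `K` pebbles? -/
def blockOK (w : List Bool) (K : ℕ) (S : List ℕ) : Bool :=
  S.all (fun v => (reachL w K S).any (fun c => c.any (fun y => decide (v = y))))

/-- the test: all blocks pass -/
def allOK (C : ℕ) (w : List Bool) : Bool :=
  (List.range (side w / bsize (side w) + 1)).all
    (fun j => blockOK w (thr C (side w)) (blk w j))

/-- the output of the algorithm -/
def alg (C : ℕ) (w : List Bool) : ℕ :=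
  if allOK C w then
    (side w / bsize (side w) + 1) * (thr C (side w) + (maxDeg w + 1))
  else
    32 * (maxDeg w + 1) * 2 ^ (Nat.log 2 (side w) - Nat.log 2 (Nat.log 2 (side w)))

end Pool.Agent.PebAlg
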